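import Pool.Agent.W387.Q.AreaLaw
import Pool.Agent.W387.Q.Mom
import Pool.Agent.TH303.LTwo
import Pool.Agent.Q172.SawLim.Soft

/-!
# Limit laws of the area of self-avoiding polygons: tightness, joint merging of laws and moments
-/

set_option autoImplicit false
set_option linter.unusedVariables false

namespace Q172.SapLim

open MeasureTheory Filter Topology Set
open scoped NNReal ENNReal
open Pool.Agent.H976R2 Pool.Agent.H924P Pool.Agent.H739K
open Pool.Agent.W387.Q.AL

/-- the normalised moment is the integral of the power with respect to the law -/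
lemma NK_eq_L (k : ℕ) (n : ℕ) : MOM.NK k n = L n (fun x => x ^ k) := rfl

lemma NK_pos (k : ℕ) {n : ℕ} (hn : 2 ≤ n) : 0 < MOM.NK k n := by
  rw [MOM.NK_eq k n hn]
  have h1 := MOM.MK_pos k n hn
  have h2 := MA_pos hn
  positivity

lemma L_mono {n : ℕ} (hn : 2 ≤ n) {g h : ℝ → ℝ} (H : ∀ x, 0 ≤ x → g x ≤ h x) : L n g ≤ L n h := by
  rw [L_eq hn, L_eq hn]
  refine div_le_div_of_nonneg_right (Finset.sum_le_sum fun w hw => H _ ?_) (Nat.cast_nonneg _)
  have h2 := MA_pos hn
  positivity

lemma L_const_mul {n : ℕ} (hn : 2 ≤ n) (c : ℝ) (g : ℝ → ℝ) : L n (fun x => c * g x) = c * L n g := by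
  rw [L_eq hn, L_eq hn, ← Finset.mul_sum, mul_div_assoc]

lemma L_zero {n : ℕ} (hn : 2 ≤ n) : L n (fun _ => 0) = 0 := by
  rw [L_eq hn]; simp

lemma NK_one {n : ℕ} (hn : 2 ≤ n) : MOM.NK 1 n = 1 := by
  rw [MOM.NK_eq 1 n hn, pow_one]
  have h2 := MA_pos hn
  have h3 : MOM.MK 1 n = MA n := by unfold MOM.MK MA; simp only [pow_one]
  rw [h3, div_self h2.ne']

lemma L_id {n : ℕ} (hn : 2 ≤ n) : L n (fun x => x) = 1 := by
  have h := NK_one hn
  rw [NK_eq_L] at h
  simpa using h

lemma real_law {n : ℕ} (hn : 2 ≤ n) {A : Set ℝ} (hA : MeasurableSet A) :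
    (law n).real A = L n (A.indicator 1) := by
  rw [← integral_law hn, integral_indicator_one hA]

lemma mass_compl {n : ℕ} (hn : 2 ≤ n) {R : ℝ} (hR : 0 < R) :
    (law n).real (Icc 0 R)ᶜ ≤ 1 / R := by
  rw [real_law hn measurableSet_Icc.compl]
  have h1 : L n ((Icc 0 R)ᶜ.indicator 1) ≤ L n (fun x => R⁻¹ * x) := by
    refine L_mono hn fun x hx => ?_
    by_cases hxR : x ≤ R
    · rw [indicator_of_notMem (by simp [hx, hxR])]
      positivity
    · rw [indicator_of_mem (by simp only [mem_compl_iff, mem_Icc, not_and]; exact fun _ => hxR)]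
      push Not at hxR
      rw [Pi.one_apply, inv_mul_eq_div, le_div_iff₀ hR]
      linarith
  rw [L_const_mul hn R⁻¹ (fun x => x), L_id hn, mul_one] at h1
  rw [one_div]
  exact h1

/-- the law of the normalised area at half-perimeter `k + 2` -/
noncomputable def P (k : ℕ) : ProbabilityMeasure ℝ := plaw (k + 2)

/-- its moments -/
noncomputable def mom (k : ℕ) : ℕ → ℝ≥0∞ := fun j => ENNReal.ofReal (MOM.NK j (k + 2))

lemma tight : IsCompact (closure (Set.range P)) := by
  refine Q172.SawLim.tight_compact _ fun ε hε => ⟨Icc 0 (1 / ε), isCompact_Icc, fun k => ?_⟩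
  refine (mass_compl (show 2 ≤ k + 2 by omega) (by positivity : (0 : ℝ) < 1 / ε)).trans (le_of_eq ?_)
  field_simp

lemma rN_tendsto : Tendsto (fun n : ℕ => Pool.Agent.W387.Q.rN n) atTop (𝓝 0) := by
  have h1 : Tendsto (fun x : ℝ => Real.log x / x ^ (1 / 2 : ℝ)) atTop (𝓝 0) :=
    (isLittleO_log_rpow_atTop (by norm_num)).tendsto_div_nhds_zero
  have h2 := h1.comp tendsto_natCast_atTop_atTop
  refine h2.congr' ?_
  filter_upwards [eventually_ge_atTop 2] with n hn
  rw [Pool.Agent.TH508.LT.rN_eq hn, Real.sqrt_eq_rpow]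
  rfl

lemma merge (g : ℝ → ℝ) (hg : ∀ x, |g x| ≤ 1) (hL : LipschitzWith 1 g) :
    Tendsto (fun k => ∫ x, g x ∂(P (k + 1) : Measure ℝ) - ∫ x, g x ∂(P k : Measure ℝ)) atTop
      (𝓝 0) := by
  obtain ⟨K, hK⟩ := Pool.Agent.W387.Q.f4
  have h1 : ∀ k, |∫ x, g x ∂(P (k + 1) : Measure ℝ) - ∫ x, g x ∂(P k : Measure ℝ)| ≤
      K * Pool.Agent.W387.Q.rN (k + 2) := by
    intro k
    have e1 : ∫ x, g x ∂(P (k + 1) : Measure ℝ) = L (k + 2 + 1) g :=
      integral_law (N := k + 1 + 2) (by omega) g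
    have e2 : ∫ x, g x ∂(P k : Measure ℝ) = L (k + 2) g :=
      integral_law (N := k + 2) (by omega) g
    rw [e1, e2]
    refine hK (k + 2) (by omega) g (fun x y => ?_) hg
    have := hL.dist_le_mul x y
    rwa [Real.dist_eq, Real.dist_eq, NNReal.coe_one, one_mul] at this
  refine squeeze_zero_norm (fun k => ?_) (a := fun k => K * Pool.Agent.W387.Q.rN (k + 2)) ?_
  · rw [Real.norm_eq_abs]; exact h1 k
  · have h2 := (rN_tendsto.comp (tendsto_add_atTop_nat 2)).const_mul K
    rw [mul_zero] at h2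
    exact h2

lemma ratio (j : ℕ) : Tendsto (fun k => ENNReal.ofReal (MOM.NK j (k + 2 + 1) / MOM.NK j (k + 2)))
    atTop (𝓝 1) := by
  obtain ⟨K, hK⟩ := Pool.Agent.W387.Q.MOM.all_moments j
  have h1 : Tendsto (fun k : ℕ => MOM.NK j (k + 2 + 1) / MOM.NK j (k + 2) - 1) atTop (𝓝 0) := by
    refine squeeze_zero_norm (fun k => ?_) (a := fun k => K * Pool.Agent.W387.Q.rN (k + 2)) ?_
    · rw [Real.norm_eq_abs]; exact (hK (k + 2) (by omega)).2
    · have h2 := (rN_tendsto.comp (tendsto_add_atTop_nat 2)).const_mul K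
      rw [mul_zero] at h2
      exact h2
  have h2 : Tendsto (fun k : ℕ => MOM.NK j (k + 2 + 1) / MOM.NK j (k + 2)) atTop (𝓝 1) := by
    have := h1.add_const 1
    simpa using this
  have h3 := (ENNReal.continuous_ofReal.tendsto 1).comp h2
  rw [ENNReal.ofReal_one] at h3
  exact h3

/-- **joint law of the normalised area and its moments: the set of limits is compact and
connected** -/
theorem joint_connected :
    IsCompact {p | MapClusterPt p atTop (fun k => (P k, mom k))} ∧
      IsConnected {p | MapClusterPt p atTop (fun k => (P k, mom k))} := by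
  refine Q172.SawLim.connected_cluster _ (closure (Set.range P) ×ˢ univ)
    (tight.prod isCompact_univ) (fun k => ⟨subset_closure ⟨k, rfl⟩, mem_univ _⟩) ?_
  rintro F hF hFa ⟨ν, b⟩ hν
  rw [Prod.tendsto_iff] at hν ⊢
  refine ⟨Q172.SawLim.step_of_bl _ _ merge F hF hFa ν hν.1, ?_⟩
  have h2 := tendsto_pi_nhds.1 hν.2
  refine tendsto_pi_nhds.2 fun j => ?_
  have h3 := ENNReal.Tendsto.mul (h2 j) (Or.inr ENNReal.one_ne_top) ((ratio j).mono_left hFa)
    (Or.inl one_ne_zero)
  simp only [mul_one] at h3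
  refine h3.congr fun k => ?_
  show ENNReal.ofReal _ * ENNReal.ofReal _ = ENNReal.ofReal _
  have h4 := NK_pos j (show 2 ≤ k + 2 by omega)
  rw [← ENNReal.ofReal_mul h4.le, mul_div_cancel₀ _ h4.ne']

/-- facts on limits -/
theorem limit_facts {ν : ProbabilityMeasure ℝ} {b : ℕ → ℝ≥0∞} {φ : ℕ → ℕ} 
    (h : Tendsto (fun k => (P (φ k), mom (φ k))) atTop (𝓝 (ν, b))) :
    (ν : Measure ℝ) (Iio 0) = 0 ∧ b 0 = 1 ∧ b 1 = 1 ∧
      ∀ j, ∫⁻ x, ENNReal.ofReal x ^ j ∂(ν : Measure ℝ) ≤ b j := by
  rw [Prod.tendsto_iff] at h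
  obtain ⟨h1, h2⟩ := h
  have h3 := tendsto_pi_nhds.1 h2
  have hopen : ∀ G : Set ℝ, IsOpen G → (ν : Measure ℝ) G ≤
      atTop.liminf (fun k => (P (φ k) : Measure ℝ) G) := fun G hG =>
    ProbabilityMeasure.le_liminf_measure_open_of_tendsto h1 hG
  have hneg : ∀ k, (P (φ k) : Measure ℝ) (Iio 0) = 0 := by
    intro k
    have e : (law (φ k + 2)).real (Iio 0) = 0 := by
      rw [real_law (by omega) measurableSet_Iio]
      refine le_antisymm ?_ ?_
      · refine le_of_le_of_eq (L_mono (h := fun _ => 0) (by omega) fun x hx => ?_)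
          (L_zero (show 2 ≤ φ k + 2 by omega))
        rw [indicator_of_notMem (by simpa using hx)]
      · refine le_of_eq_of_le (L_zero (show 2 ≤ φ k + 2 by omega)).symm
          (L_mono (g := fun _ => 0) (by omega) fun x hx => ?_)
        exact indicator_nonneg (fun _ _ => zero_le_one) x
    rw [measureReal_eq_zero_iff] at e
    exact e
  refine ⟨?_, ?_, ?_, fun j => ?_⟩
  · refine le_antisymm ((hopen _ isOpen_Iio).trans ?_) zero_le
    simp only [hneg]
    simp
  · have h4 := h3 0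
    refine tendsto_nhds_unique h4 (tendsto_const_nhds.congr fun k => ?_)
    show (1 : ℝ≥0∞) = ENNReal.ofReal _
    have h5 : MOM.NK 0 (φ k + 2) = 1 := by
      rw [NK_eq_L, L_eq (by omega)]
      have h6 := card_ne (show 2 ≤ φ k + 2 by omega)
      simp only [pow_zero, Finset.sum_const, nsmul_eq_mul, mul_one]
      rw [div_self (by exact_mod_cast h6)]
    rw [h5, ENNReal.ofReal_one]
  · have h4 := h3 1
    refine tendsto_nhds_unique h4 (tendsto_const_nhds.congr fun k => ?_)
    show (1 : ℝ≥0∞) = ENNReal.ofReal _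
    rw [NK_one (by omega), ENNReal.ofReal_one]
  · have h4 := lintegral_le_liminf_lintegral_of_forall_isOpen_measure_le_liminf_measure
      (μ := (ν : Measure ℝ)) (μs := fun k => (P (φ k) : Measure ℝ)) (f := fun x => max x 0 ^ j)
      (by fun_prop) (fun x => by positivity) hopen
    have e1 : ∀ x : ℝ, ENNReal.ofReal (max x 0 ^ j) = ENNReal.ofReal x ^ j := fun x => by
      rw [ENNReal.ofReal_pow (le_max_right _ _)]
      congr 1
      rcases le_total x 0 with hx | hx
      · rw [max_eq_right hx, ENNReal.ofReal_zero, ENNReal.ofReal_of_nonpos hx]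
      · rw [max_eq_left hx]
    simp only [e1] at h4
    refine h4.trans (le_of_eq ?_)
    refine Filter.Tendsto.liminf_eq ?_
    refine (h3 j).congr fun k => ?_
    show ENNReal.ofReal _ = _
    have hint : ∀ m : ℕ, 2 ≤ m → Integrable (fun x : ℝ => max x 0 ^ j) (law m) := by
      intro m hm
      unfold law
      rw [if_pos hm]
      refine Integrable.smul_measure ?_ ?_
      · rw [integrable_finsetSum_measure]
        exact fun w hw => integrable_dirac (by simp)
      · have := card_ne hm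
        simp only [ne_eq, ENNReal.inv_eq_top, Nat.cast_eq_zero]
        exact this
    have e2 : ∫⁻ x, ENNReal.ofReal (max x 0 ^ j) ∂(law (φ k + 2)) =
        ENNReal.ofReal (∫ x, max x 0 ^ j ∂(law (φ k + 2))) :=
      (ofReal_integral_eq_lintegral_ofReal (hint _ (by omega)) (Eventually.of_forall fun x => by
        positivity)).symm
    simp only [e1] at e2
    have e3 : ((P (φ k) : ProbabilityMeasure ℝ) : Measure ℝ) = law (φ k + 2) := rfl
    rw [e3, e2, integral_law (by omega)]
    congr 1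
    rw [NK_eq_L]
    exact le_antisymm (L_mono (by omega) fun x hx => by rw [max_eq_left hx])
      (L_mono (by omega) fun x hx => by rw [max_eq_left hx])

end Q172.SapLim
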